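import Mathlib

set_option autoImplicit false
set_option linter.unusedVariables false

/-!
# A lemma on nilpotent groups
-/

namespace Pool.Agent.Q246.FD

open scoped commutatorElement

/-- if `x ^ p = 1` and `x ^ c * x⁻¹` lies in a subgroup, `c ≢ 1 mod p`, then so does `x` -/
lemma mem_of_pow {G : Type*} [Group G] (S : Subgroup G) {x : G} {p c : ℕ} (hp : p.Prime)
    (hx : x ^ p ∈ S) (hxc : x ^ c * x⁻¹ ∈ S) (hc : ¬ c ≡ 1 [MOD p]) : x ∈ S := by
  have h1 : IsCoprime ((c : ℤ) - 1) (p : ℤ) := by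
    rw [isCoprime_comm]
    refine (Nat.prime_iff_prime_int.1 hp).coprime_iff_not_dvd.2 ?_
    intro h
    apply hc
    have := (Int.modEq_iff_dvd.2 (by simpa using h) : (1 : ℤ) ≡ c [ZMOD p])
    exact ((Int.natCast_modEq_iff (a := 1) (b := c) (n := p)).1 (by exact_mod_cast this)).symm
  obtain ⟨a, b, hab⟩ := h1
  have h2 : x ^ ((c : ℤ) - 1) ∈ S := by
    rw [zpow_sub_one, zpow_natCast]
    exact hxc
  have h3 : x = (x ^ ((c : ℤ) - 1)) ^ a * (x ^ (p : ℤ)) ^ b := by
    rw [← zpow_mul, ← zpow_mul, ← zpow_add, mul_comm _ a, mul_comm _ b, hab, zpow_one]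
  rw [h3]
  refine mul_mem (S.zpow_mem h2 a) (S.zpow_mem ?_ b)
  rw [zpow_natCast]
  exact hx

/-- in a nilpotent group an element of order `p` is not conjugate to its `c`-th power, unless
`c ≡ 1 mod p` -/
lemma nil_one {H : Type*} [Group H] [hH : Group.IsNilpotent H] {x s : H} {p c : ℕ}
    (hp : p.Prime) (hx : x ^ p = 1) (hsx : s * x * s⁻¹ = x ^ c) (hc : ¬ c ≡ 1 [MOD p]) :
    x = 1 := by
  have key : ∀ n : ℕ, x ∈ (⊤ : Subgroup H).lowerCentralSeries n := by
    intro n
    induction n with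
    | zero => exact Subgroup.mem_top x
    | succ n ih =>
      refine mem_of_pow _ hp (by rw [hx]; exact one_mem _) ?_ hc
      rw [Subgroup.lowerCentralSeries_succ]
      have h1 : ⁅x, s⁆ ∈ ⁅(⊤ : Subgroup H).lowerCentralSeries n, (⊤ : Subgroup H)⁆ :=
        Subgroup.commutator_mem_commutator ih (Subgroup.mem_top s)
      have h2 : x ^ c * x⁻¹ = ⁅x, s⁆⁻¹ := by
        rw [← hsx, commutatorElement_def]
        group
      rw [h2]
      exact inv_mem h1
  obtain ⟨n, hn⟩ := Subgroup.nilpotent_iff_lowerCentralSeries.1 hH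
  have h := key n
  rw [hn, Subgroup.mem_bot] at h
  exact h

/-- the same modulo a normal subgroup `N`, if `s` lies in a nilpotent normal subgroup -/
lemma nil_mem {G : Type*} [Group G] (S N : Subgroup G) [S.Normal] [N.Normal]
    (hS : Group.IsNilpotent S) {x s : G} (hsS : s ∈ S) {p c : ℕ} (hp : p.Prime) (hx : x ^ p ∈ N)
    (hsx : s * x * s⁻¹ * (x ^ c)⁻¹ ∈ N) (hc : ¬ c ≡ 1 [MOD p]) : x ∈ N := by
  let π : G →* G ⧸ N := QuotientGroup.mk' N
  have hπ : Function.Surjective π := QuotientGroup.mk'_surjective N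
  have hker : ∀ g : G, π g = 1 ↔ g ∈ N := fun g => by
    change QuotientGroup.mk' N g = 1 ↔ _
    rw [QuotientGroup.mk'_apply, QuotientGroup.eq_one_iff]
  have h1 : (π x) ^ p = 1 := by rw [← map_pow, hker]; exact hx
  have h2 : π s * π x * (π s)⁻¹ = (π x) ^ c := by
    rw [← map_pow, ← map_mul, ← map_inv, ← map_mul, ← mul_inv_eq_one, ← map_inv, ← map_mul, hker]
    exact hsx
  let S' : Subgroup (G ⧸ N) := S.map π
  have hS'n : S'.Normal := Subgroup.Normal.map inferInstance π hπ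
  have hsS' : π s ∈ S' := Subgroup.mem_map_of_mem π hsS
  have hxS' : π x ∈ S' := by
    refine mem_of_pow S' hp (by rw [h1]; exact one_mem _) ?_ hc
    rw [← h2]
    have h3 : π s * π x * (π s)⁻¹ * (π x)⁻¹ = π s * (π x * (π s)⁻¹ * (π x)⁻¹) := by group
    rw [h3]
    exact mul_mem hsS' (hS'n.conj_mem _ (inv_mem hsS') _)
  have hnil : Group.IsNilpotent S' := by
    have hsur : Function.Surjective (π.subgroupMap S) := π.subgroupMap_surjective S
    exact Group.nilpotent_of_surjective (π.subgroupMap S) hsur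
  have h4 := nil_one (H := S') (x := ⟨π x, hxS'⟩) (s := ⟨π s, hsS'⟩) (p := p) (c := c) hp
    (Subtype.ext h1) (Subtype.ext h2) hc
  rw [← hker]
  exact congrArg Subtype.val h4

end Pool.Agent.Q246.FD
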