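import Mathlib
import Pool.Agent.H54.G.TH53.RP8
import Pool.Agent.H54.G.Q246.FD.Kum

set_option autoImplicit false
set_option linter.unusedVariables false

/-!
# The height bound relative to the whole division group, for Galois extensions without Kummer type
-/

namespace Pool.Agent.Q246.FD

open Polynomial IntermediateField
open Pool.Agent.H58P (Qb ht)
open Pool.Agent.W237.RK
open Pool.Agent.TH53.RP

/-- no Galois subextension of `L / K` is of Kummer type at a prime outside `P` -/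
def NoKT (K L : GF) (P : Finset ℕ) : Prop :=
  ∀ p : ℕ, p.Prime → p ∉ P → ∀ M : GF, K ≤ M → M ≤ L → NormalOver K M → ¬ KT K M p

/-- `ℚ(Γ_div)` -/
noncomputable def dvF (Γ : Subgroup Qbˣ) : GF := IntermediateField.adjoin ℚ {y | DivG Γ y}

theorem orb_le {K L : GF} {Γ : Subgroup Qbˣ} (hΓ : ∀ g ∈ Γ, (g : Qb) ∈ K) (P : Finset ℕ)
    (hKL : K ≤ L) (hL : NormalOver K L) (hno : NoKT K L P) {α : Qb} (hα : α ∈ L) :
    orb (fullField K Γ P) α ⊆ orb (divF K Γ) α := by
  classical
  set F := divF K Γ with hF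
  have hKF : K ≤ F := le_divF K Γ
  have hf := minpoly_map_eq_oprod F α
  set f : Qb[X] := (minpoly F α).map (algebraMap F Qb) with hfd
  have hOL : ∀ y ∈ orb F α, y ∈ L := by
    rintro _ ⟨σ, hσ, rfl⟩
    exact hL σ (fix_mono hKF hσ) α hα
  have hcoef : ∀ i, f.coeff i ∈ fullField K Γ P := by
    intro i
    have h1 : f.coeff i ∈ F := by
      rw [hfd, coeff_map]
      exact ((minpoly F α).coeff i).2
    have h2 : f.coeff i ∈ L := by
      refine mem_of_fix _ _ (fun σ hσ => ?_)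
      have h3 : f.map (σ : Qb →+* Qb) = f := by
        rw [hf, Polynomial.map_prod]
        refine Finset.prod_congr rfl (fun y hy => ?_)
        rw [Polynomial.map_sub, map_X, map_C]
        congr 2
        exact hσ y (hOL y ((orb_finite F α).mem_toFinset.1 hy))
      have h4 : (f.map (σ : Qb →+* Qb)).coeff i = f.coeff i := by rw [h3]
      rw [coeff_map] at h4
      exact h4
    by_contra hne
    obtain ⟨p, hp, hpP, M, hKM, hML, hMn, hKT⟩ := kum hΓ P hKL hL h2 h1 hne
    exact hno p hp hpP M hKM hML hMn hKT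
  rintro _ ⟨ρ, hρ, rfl⟩
  have h5 : f.map (ρ : Qb →+* Qb) = f := by
    ext i
    rw [coeff_map]
    exact hρ _ (hcoef i)
  have h6 : f.eval α = 0 := by
    rw [hfd, eval_map_algebraMap, minpoly.aeval]
  have h7 : f.eval (ρ α) = 0 := by
    have h8 : (f.map (ρ : Qb →+* Qb)).eval (ρ α) = ρ (f.eval α) := by
      have := Polynomial.eval_map_apply (f := (ρ : Qb →+* Qb)) (p := f) (x := α)
      exact this
    rw [h5, h6, map_zero] at h8
    exact h8
  rw [mem_orb_iff]
  rw [hfd, eval_map_algebraMap] at h7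
  exact h7

/-- the bound for `α` in `L` -/
theorem main (K : GF) (Γ : Subgroup Qbˣ) (hK : FiniteDimensional ℚ K) (hΓfg : Γ.FG)
    (hΓ : ∀ g ∈ Γ, (g : Qb) ∈ K) (P : Finset ℕ) (hP : ∀ p ∈ P, p.Prime) :
    ∃ A : ℕ, 0 < A ∧ ∀ L : GF, K ≤ L → NormalOver K L → NoKT K L P →
      ∀ α : Qb, α ∈ L → α ≠ 0 → ¬ DivG Γ α → ∀ γ : Qb, DivG Γ γ →
        1 / ((A : ℝ) * ((minpoly (dvF Γ) α).natDegree : ℝ) ^ A) ≤
          NumberField.absLogHeight₁ (α / γ) := by
  obtain ⟨A, hA, h⟩ := dist' K Γ hK hΓfg hΓ P hP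
  refine ⟨A, hA, fun L hKL hL hno α hα hα0 hd γ hγ => ?_⟩
  rw [Pool.Agent.H58P.absLogHeight₁_eq, one_div]
  have hD : 0 < (minpoly (dvF Γ) α).natDegree := by
    rw [← orb_ncard]
    exact orb_ncard_pos _ _
  refine h _ hD α hα0 ?_ hd γ hγ
  have h1 : dvF Γ ≤ divF K Γ := by
    unfold dvF divF
    exact adjoin.mono _ _ _ Set.subset_union_right
  calc (orb (fullField K Γ P) α).ncard ≤ (orb (divF K Γ) α).ncard :=
        Set.ncard_le_ncard (orb_le hΓ P hKL hL hno hα) (orb_finite _ _)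
    _ ≤ (orb (dvF Γ) α).ncard := Set.ncard_le_ncard (orb_mono h1 α) (orb_finite _ _)
    _ = _ := orb_ncard _ _

end Pool.Agent.Q246.FD
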